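import Pool.Agent.Q117.YT.Region
import Pool.Agent.Q117.YT.Family

/-!
`MP_ed556a_co`, question 1.  The region `𝒫` of limiting path and star densities of trees is not
the convex hull `C` of `(0, 1)` and the millipede points: chains of double stars give the point
`(3/38, 35/152)` of `𝒫`, and the linear inequality `5 ≤ 27 p₁ + 12 p₂`, valid on `C`, fails there.
-/

namespace Pool.Agent.Results.MP_ed556a_co.NotMillipedeHull

open SimpleGraph Filter Topology Pool.Agent.Q117.YT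

theorem mem_PP : (((3 : ℝ) / 38, (35 : ℝ) / 152) : ℝ × ℝ) ∈ PP := by
  refine ⟨(24 / 304, 70 / 304, 210 / 304), ?_, ?_⟩
  · refine ⟨fun n => Fin (n + 1) × Fin 14, fun n => inferInstance, fun n => tr n,
      fun n => isTree_tr n, ?_, ?_⟩
    · apply tendsto_atTop_mono (f := fun n => n)
      · intro n
        simp only [Fintype.card_prod, Fintype.card_fin]
        omega
      · exact tendsto_id
    · have hP : ∀ n : ℕ, (cP (tr n) : ℝ) = 24 * n := by
        intro n; exact_mod_cast P_tr n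
      have hS : ∀ n : ℕ, (cS (tr n) : ℝ) = 70 * n + 70 := by
        intro n; exact_mod_cast S_tr n
      have hY : ∀ n : ℕ, (cY (tr n) : ℝ) = 210 * n + 180 := by
        intro n; exact_mod_cast Y_tr n
      have hZ : ∀ n : ℕ, cZ (tr n) = 250 + 304 * n := by
        intro n
        unfold cZ
        rw [hP, hS, hY]
        ring
      have h1 := tendsto_add_mul_div_add_mul_atTop_nhds (0 : ℝ) 250 24 (d := 304) (by norm_num)
      have h2 := tendsto_add_mul_div_add_mul_atTop_nhds (70 : ℝ) 250 70 (d := 304) (by norm_num)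
      have h3 := tendsto_add_mul_div_add_mul_atTop_nhds (180 : ℝ) 250 210 (d := 304) (by norm_num)
      have h := h1.prodMk_nhds (h2.prodMk_nhds h3)
      refine h.congr ?_
      intro n
      unfold profile
      rw [hP, hS, hY, hZ]
      refine Prod.ext ?_ (Prod.ext ?_ ?_)
      · simp only []
        congr 1
        ring
      · simp only []
        congr 1
        ring
      · simp only []
        congr 1
        ring
  · refine Prod.ext ?_ ?_ <;> norm_num

/-- the separating half-plane -/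
def Half : Set (ℝ × ℝ) := {q | (5 : ℝ) ≤ 27 * q.1 + 12 * q.2}

theorem convex_half : Convex ℝ Half := by
  intro x hx y hy a b ha hb hab
  have hx' : (5 : ℝ) ≤ 27 * x.1 + 12 * x.2 := hx
  have hy' : (5 : ℝ) ≤ 27 * y.1 + 12 * y.2 := hy
  change (5 : ℝ) ≤ 27 * (a • x + b • y).1 + 12 * (a • x + b • y).2
  simp only [Prod.fst_add, Prod.snd_add, Prod.smul_fst, Prod.smul_snd, smul_eq_mul]
  have h1 := mul_le_mul_of_nonneg_left hx' ha
  have h2 := mul_le_mul_of_nonneg_left hy' hb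
  have h3 : 5 * (a + b) = 5 := by rw [hab]; ring
  nlinarith

theorem choose_formula (d : ℕ) :
    24 * ((d + 2).choose 4 : ℝ) = ((d : ℝ) + 2) * (d + 1) * d * (d - 1) := by
  have h := Nat.descFactorial_eq_factorial_mul_choose (d + 2) 4
  have h2 := descFactorial_four (d + 2)
  rw [h] at h2
  have h3 : (((4).factorial * (d + 2).choose 4 : ℕ) : ℤ) = 24 * ((d + 2).choose 4 : ℤ) := by
    push_cast
    rfl
  rw [h3] at h2
  have h4 : (24 * ((d + 2).choose 4 : ℤ) : ℝ)
      = (((d + 2 : ℕ) : ℤ) : ℝ) * ((((d + 2 : ℕ) : ℤ) : ℝ) - 1)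
        * ((((d + 2 : ℕ) : ℤ) : ℝ) - 2) * ((((d + 2 : ℕ) : ℤ) : ℝ) - 3) := by
    exact_mod_cast h2
  push_cast at h4
  rw [h4]
  ring

theorem mill_half (d : ℕ) : mill d ∈ Half := by
  have hd : (0 : ℝ) ≤ d := Nat.cast_nonneg d
  have hC := choose_formula d
  have hCn : (0 : ℝ) ≤ ((d + 2).choose 4 : ℝ) := Nat.cast_nonneg _
  have hpos : (0 : ℝ) < ((d + 2).choose 4 : ℝ) + ((d : ℝ) + 1) ^ 3 := by positivity
  change (5 : ℝ) ≤ 27 * (((d : ℝ) + 1) ^ 2 / (((d + 2).choose 4 : ℝ) + ((d : ℝ) + 1) ^ 3))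
    + 12 * (((d + 2).choose 4 : ℝ) / (((d + 2).choose 4 : ℝ) + ((d : ℝ) + 1) ^ 3))
  rw [← mul_div_assoc, ← mul_div_assoc, ← add_div, le_div_iff₀ hpos]
  have key : 0 ≤ 7 * ((d : ℝ) + 1) ^ 3 - 134 * ((d : ℝ) + 1) ^ 2 + 641 * ((d : ℝ) + 1) + 14 := by
    rcases le_or_gt ((d : ℝ) + 1) 49 with h | h
    · nlinarith [mul_nonneg (by linarith : (0 : ℝ) ≤ (d : ℝ) + 1)
        (sq_nonneg (7 * ((d : ℝ) + 1) - 67))]
    · nlinarith [mul_nonneg (by linarith : (0 : ℝ) ≤ (d : ℝ) + 1)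
        (sq_nonneg (7 * ((d : ℝ) + 1) - 67)), sq_nonneg ((d : ℝ) + 1)]
  nlinarith [mul_nonneg (by linarith : (0 : ℝ) ≤ (d : ℝ) + 1) key]

theorem CC_half : CC ⊆ Half := by
  apply convexHull_min _ convex_half
  rintro q (hq | ⟨d, rfl⟩)
  · rw [Set.mem_singleton_iff] at hq
    rw [hq]
    change (5 : ℝ) ≤ 27 * (0 : ℝ) + 12 * (1 : ℝ)
    norm_num
  · exact mill_half d

/-- The point `(3/38, 35/152)` is a pair of limiting path and star densities of trees lying
outside the convex hull of `(0,1)` and the millipede points; hence the two sets differ. -/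
theorem result : (((3 : ℝ) / 38, (35 : ℝ) / 152) : ℝ × ℝ) ∈ PP ∧
    (((3 : ℝ) / 38, (35 : ℝ) / 152) : ℝ × ℝ) ∉ CC ∧ PP ≠ CC := by
  have h2 : (((3 : ℝ) / 38, (35 : ℝ) / 152) : ℝ × ℝ) ∉ CC := by
    intro h
    have h' : (5 : ℝ) ≤ 27 * ((3 : ℝ) / 38) + 12 * ((35 : ℝ) / 152) := CC_half h
    norm_num at h'
  exact ⟨mem_PP, h2, fun h => h2 (h ▸ mem_PP)⟩

end Pool.Agent.Results.MP_ed556a_co.NotMillipedeHull
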