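import Pool.Agent.Q117.YT.Ineq

/-!
`MP_ed556a_co`, question 2.  Every finite tree satisfies `Y ≤ 9 S + P + 8`, so the answer is yes,
with `K = 8`.
-/

namespace Pool.Agent.Results.MP_ed556a_co.YBound

open SimpleGraph Pool.Agent.Q117.YT

/-- Every finite tree `T` satisfies `Y(T) ≤ 9 S(T) + P(T) + 8`. -/
theorem result (V : Type) [Fintype V] (T : SimpleGraph V) (hT : T.IsTree) :
    cY T ≤ 9 * cS T + cP T + 8 := by
  classical
  have h := main_ineq T hT
  exact_mod_cast h

end Pool.Agent.Results.MP_ed556a_co.YBound
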